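import Mathlib
import Pool.Agent.Lib.MP_b73640_ag.Ghost

/-! Real fields are not `n`-Brauertsch for any odd `n ≥ 3`. -/

open CategoryTheory AlgebraicGeometry
open Pool.Agent.Lib.MP_b73640_ag

namespace Pool.Agent.Results.MP_b73640_ag.NotBrauertsch

/-- Every field `F` that embeds in `ℝ` fails to be `n`-Brauertsch, for every odd `n ≥ 3`: there are a
projective curve and an affine curve with classes of order two which vanish at every point. Such
fields exist, finitely generated and of arbitrarily large transcendence degree over a perfect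
field. -/
theorem result (n : ℕ) (hn : Odd n) (h3 : 3 ≤ n) :
    (∀ (F : Type) [Field F], Nonempty (F →+* ℝ) → ¬ IsNBrauertsch n F ∧
      (IsCurve (P1.toSpec F) ∧ HasGhost n (P1 F)) ∧
      IsCurve ((P1.circle F).ι ≫ P1.toSpec F) ∧ IsAffine (P1.circle F : Scheme.{0}) ∧
      HasGhost n (P1.circle F : Scheme.{0})) ∧
    ∀ m : ℕ, ∃ (F : Type) (_ : Field F) (k : Subfield F), PerfectField k ∧
      (m : Cardinal) ≤ Algebra.trdeg k F ∧ Algebra.EssFiniteType k F ∧ ¬ IsNBrauertsch n F := by
  have key : ∀ (F : Type) [Field F], Nonempty (F →+* ℝ) → ¬ IsNBrauertsch n F ∧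
      (IsCurve (P1.toSpec F) ∧ HasGhost n (P1 F)) ∧
      IsCurve ((P1.circle F).ι ≫ P1.toSpec F) ∧ IsAffine (P1.circle F : Scheme.{0}) ∧
      HasGhost n (P1.circle F : Scheme.{0}) := by
    rintro F _ ⟨φ⟩
    have : CharZero F := φ.charZero
    exact ⟨not_isNBrauertsch (by norm_num) (curve F) (hasGhost_P1 hn h3 F φ),
      ⟨curve F, hasGhost_P1 hn h3 F φ⟩, isCurve_circle F, isAffine_circle F,
      hasGhost_circle hn h3 F φ⟩
  refine ⟨key, fun m => ?_⟩
  obtain ⟨F, hF, k, hk, hm, hfg, hφ⟩ := fieldH m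
  exact ⟨F, hF, k, hk, hm, hfg, (key F hφ).1⟩

end Pool.Agent.Results.MP_b73640_ag.NotBrauertsch
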