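import Mathlib
import Pool.Agent.Lib.MP_b73640_ag.Ghost

/-! Real fields are not `n`-Hilbertian for any odd `n ≥ 3`. -/

open CategoryTheory AlgebraicGeometry
open Pool.Agent.Lib.MP_b73640_ag

namespace Pool.Agent.Results.MP_b73640_ag.NotHilbertian

/-- Every field `F` that embeds in `ℝ` fails to be `n`-Hilbertian, for every odd `n ≥ 3`: on the
projective line and on its affine open subset `x² + y² ≠ 0` there are classes of order two which
vanish at every point. Such fields exist, finitely generated and of arbitrarily large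
transcendence degree over a perfect field. -/
theorem result (n : ℕ) (hn : Odd n) (h3 : 3 ≤ n) :
    (∀ (F : Type) [Field F], Nonempty (F →+* ℝ) → ¬ IsNHilbertian n F ∧
      HasGhost n ((⊤ : (P1 F).Opens) : Scheme.{0}) ∧
      IsAffine (P1.circle F : Scheme.{0}) ∧ HasGhost n (P1.circle F : Scheme.{0})) ∧
    ∀ m : ℕ, ∃ (F : Type) (_ : Field F) (k : Subfield F), PerfectField k ∧
      (m : Cardinal) ≤ Algebra.trdeg k F ∧ Algebra.EssFiniteType k F ∧ ¬ IsNHilbertian n F := by
  have key : ∀ (F : Type) [Field F], Nonempty (F →+* ℝ) → ¬ IsNHilbertian n F ∧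
      HasGhost n ((⊤ : (P1 F).Opens) : Scheme.{0}) ∧
      IsAffine (P1.circle F : Scheme.{0}) ∧ HasGhost n (P1.circle F : Scheme.{0}) := by
    rintro F _ ⟨φ⟩
    have : CharZero F := φ.charZero
    exact ⟨not_isNHilbertian (by norm_num) (nonempty_P1 F φ) (hasGhost_top hn h3 F φ),
      hasGhost_top hn h3 F φ, isAffine_circle F, hasGhost_circle hn h3 F φ⟩
  refine ⟨key, fun m => ?_⟩
  obtain ⟨F, hF, k, hk, hm, hfg, hφ⟩ := fieldH m
  exact ⟨F, hF, k, hk, hm, hfg, (key F hφ).1⟩

end Pool.Agent.Results.MP_b73640_ag.NotHilbertian
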